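import Mathlib

/-!
MP_b8a264_an, Q1: gaussian-extremizable Brascamp-Lieb data are not dense in the feasible data.
-/

set_option autoImplicit false

open MeasureTheory Matrix
open scoped ENNReal NNReal

namespace Pool.Agent.Results.MP_b8a264_an.NotDense

variable {k d : ℕ} {n : Fin k → ℕ}

/-- A Brascamp-Lieb datum: the maps `B i : ℝ^d → ℝ^(n i)` are onto, the exponents positive. -/
def IsDatum (B : ∀ i, Matrix (Fin (n i)) (Fin d) ℝ) (c : Fin k → ℝ) : Prop :=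
  (∀ i, Function.Surjective (B i).mulVec) ∧ ∀ i, 0 < c i

/-- The datum is feasible: the Brascamp-Lieb inequality holds with a finite constant. -/
def Feasible (B : ∀ i, Matrix (Fin (n i)) (Fin d) ℝ) (c : Fin k → ℝ) : Prop :=
  ∃ C : ℝ≥0, ∀ f : ∀ i, (Fin (n i) → ℝ) → ℝ≥0∞,
    (∀ i, Measurable (f i)) → (∀ i, ∫⁻ y, f i y ≠ ∞) →
      ∫⁻ x : Fin d → ℝ, ∏ i, f i ((B i).mulVec x) ^ c i ≤ C * ∏ i, (∫⁻ y, f i y) ^ c i

/-- The matrix `∑ cᵢ Bᵢᵀ Aᵢ Bᵢ`. -/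
noncomputable def MM (B : ∀ i, Matrix (Fin (n i)) (Fin d) ℝ) (c : Fin k → ℝ)
    (A : ∀ i, Matrix (Fin (n i)) (Fin (n i)) ℝ) : Matrix (Fin d) (Fin d) ℝ :=
  ∑ i, c i • ((B i)ᵀ * A i * B i)

/-- The gaussian quotient, with values in `[0,∞]`. -/
noncomputable def gaussRatio (B : ∀ i, Matrix (Fin (n i)) (Fin d) ℝ) (c : Fin k → ℝ)
    (A : ∀ i, Matrix (Fin (n i)) (Fin (n i)) ℝ) : ℝ≥0∞ :=
  (ENNReal.ofReal (∏ i, (A i).det ^ c i) / ENNReal.ofReal (MM B c A).det) ^ (1 / 2 : ℝ)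

/-- The gaussian constant. -/
noncomputable def BLg (B : ∀ i, Matrix (Fin (n i)) (Fin d) ℝ) (c : Fin k → ℝ) : ℝ≥0∞ :=
  ⨆ (A : ∀ i, Matrix (Fin (n i)) (Fin (n i)) ℝ) (_ : ∀ i, (A i).PosDef), gaussRatio B c A

/-- The gaussian constant is finite and attained. -/
def GaussianExtremizable (B : ∀ i, Matrix (Fin (n i)) (Fin d) ℝ) (c : Fin k → ℝ) : Prop :=
  BLg B c ≠ ∞ ∧ ∃ A : ∀ i, Matrix (Fin (n i)) (Fin (n i)) ℝ,
    (∀ i, (A i).PosDef) ∧ gaussRatio B c A = BLg B c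

section general

variable {B : ∀ i, Matrix (Fin (n i)) (Fin d) ℝ} {c : Fin k → ℝ}
  {A : ∀ i, Matrix (Fin (n i)) (Fin (n i)) ℝ}

theorem quad (x : Fin d → ℝ) :
    x ⬝ᵥ (MM B c A *ᵥ x) = ∑ i, c i * ((B i *ᵥ x) ⬝ᵥ (A i *ᵥ (B i *ᵥ x))) := by
  unfold MM
  rw [Matrix.sum_mulVec, dotProduct_sum]
  refine Finset.sum_congr rfl fun i _ => ?_
  rw [smul_mulVec, dotProduct_smul, smul_eq_mul]
  congr 1
  rw [← mulVec_mulVec, ← mulVec_mulVec, dotProduct_mulVec, vecMul_transpose]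

theorem isHermitian_MM (hA : ∀ i, (A i).PosDef) : (MM B c A).IsHermitian := by
  unfold MM
  rw [IsHermitian, conjTranspose_sum]
  refine Finset.sum_congr rfl fun i _ => ?_
  have h := (hA i).isHermitian
  rw [IsHermitian, conjTranspose_eq_transpose_of_trivial] at h
  rw [conjTranspose_eq_transpose_of_trivial, transpose_smul, transpose_mul, transpose_mul,
    transpose_transpose, h, Matrix.mul_assoc]

theorem posDef_MM (hA : ∀ i, (A i).PosDef) (hc : ∀ i, 0 < c i)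
    (hker : ∀ x, (∀ i, B i *ᵥ x = 0) → x = 0) : (MM B c A).PosDef := by
  refine PosDef.of_dotProduct_mulVec_pos (isHermitian_MM hA) fun x hx => ?_
  rw [star_trivial, quad]
  have h0 : ∀ i, 0 ≤ c i * ((B i *ᵥ x) ⬝ᵥ (A i *ᵥ (B i *ᵥ x))) := by
    intro i
    have := (hA i).posSemidef.dotProduct_mulVec_nonneg (B i *ᵥ x)
    rw [star_trivial] at this
    exact mul_nonneg (hc i).le this
  obtain ⟨i, hi⟩ : ∃ i, B i *ᵥ x ≠ 0 := by
    by_contra h
    push Not at h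
    exact hx (hker x h)
  refine Finset.sum_pos' (fun i _ => h0 i) ⟨i, Finset.mem_univ _, ?_⟩
  have := (hA i).dotProduct_mulVec_pos hi
  rw [star_trivial] at this
  exact mul_pos (hc i) this

theorem prod_pos' (hA : ∀ i, (A i).PosDef) : 0 < ∏ i, (A i).det ^ c i :=
  Finset.prod_pos fun i _ => Real.rpow_pos_of_pos (hA i).det_pos _

/-- The maximality of an extremizer, without division. -/
theorem ext_ineq (hc : ∀ i, 0 < c i) (hker : ∀ x, (∀ i, B i *ᵥ x = 0) → x = 0)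
    (h : GaussianExtremizable B c) :
    ∃ A : ∀ i, Matrix (Fin (n i)) (Fin (n i)) ℝ, (∀ i, (A i).PosDef) ∧
      ∀ A' : ∀ i, Matrix (Fin (n i)) (Fin (n i)) ℝ, (∀ i, (A' i).PosDef) →
        (∏ i, (A' i).det ^ c i) * (MM B c A).det ≤ (∏ i, (A i).det ^ c i) * (MM B c A').det := by
  obtain ⟨_, A, hA, h⟩ := h
  refine ⟨A, hA, fun A' hA' => ?_⟩
  have h1 : gaussRatio B c A' ≤ gaussRatio B c A := by
    rw [h]
    unfold BLg
    exact le_iSup₂ (f := fun (A : ∀ i, Matrix (Fin (n i)) (Fin (n i)) ℝ)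
      (_ : ∀ i, (A i).PosDef) => gaussRatio B c A) A' hA'
  unfold gaussRatio at h1
  rw [ENNReal.rpow_le_rpow_iff (by norm_num)] at h1
  have p1 := (posDef_MM hA hc hker).det_pos
  have p2 := (posDef_MM hA' hc hker).det_pos
  have q1 := prod_pos' (c := c) hA
  have q2 := prod_pos' (c := c) hA'
  rw [← ENNReal.ofReal_div_of_pos p1, ← ENNReal.ofReal_div_of_pos p2,
    ENNReal.ofReal_le_ofReal_iff (by positivity), div_le_div_iff₀ p2 p1] at h1
  exact h1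

theorem det_rank_one {m : ℕ} {M : Matrix (Fin m) (Fin m) ℝ} (hM : M.PosDef) (v : Fin m → ℝ)
    (s : ℝ) : (M + s • vecMulVec v v).det = M.det * (1 + s * (v ⬝ᵥ (M⁻¹ *ᵥ v))) := by
  have hu : IsUnit M.det := hM.det_pos.ne'.isUnit
  have h := det_add_replicateCol_mul_replicateRow (ι := Unit) hu (s • v) v
  have e1 : replicateCol Unit (s • v) * replicateRow Unit v = s • vecMulVec v v := by
    ext i j
    simp [Matrix.mul_apply, vecMulVec_apply]
    ring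
  have e2 : (1 + replicateRow Unit v * M⁻¹ * replicateCol Unit (s • v)).det =
      1 + s * (v ⬝ᵥ (M⁻¹ *ᵥ v)) := by
    rw [det_unique]
    simp only [Matrix.add_apply, one_apply_eq]
    congr 1
    rw [Matrix.mul_assoc, Matrix.mul_apply]
    simp only [replicateRow_apply, dotProduct, Finset.mul_sum]
    refine Finset.sum_congr rfl fun i _ => ?_
    rw [Matrix.mul_apply]
    simp only [mulVec, dotProduct, replicateCol_apply, Pi.smul_apply, smul_eq_mul, Finset.mul_sum]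
    refine Finset.sum_congr rfl fun j _ => ?_
    ring
  rw [e1, e2] at h
  exact h

theorem posDef_add {m : ℕ} {M : Matrix (Fin m) (Fin m) ℝ} (hM : M.PosDef) (v : Fin m → ℝ)
    {s : ℝ} (hs : 0 ≤ s) : (M + s • vecMulVec v v).PosDef := by
  refine hM.add_posSemidef ?_
  have := posSemidef_vecMulVec_self_star v
  rw [star_trivial] at this
  exact this.smul hs

theorem inv_quad_nonneg {m : ℕ} {M : Matrix (Fin m) (Fin m) ℝ} (hM : M.PosDef) (v : Fin m → ℝ) :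
    0 ≤ v ⬝ᵥ (M⁻¹ *ᵥ v) := by
  have := hM.posSemidef.inv.dotProduct_mulVec_nonneg v
  rwa [star_trivial] at this

theorem inv_quad_eq {m : ℕ} {M : Matrix (Fin m) (Fin m) ℝ} (hM : M.PosDef) (v : Fin m → ℝ) :
    (M⁻¹ *ᵥ v) ⬝ᵥ (M *ᵥ (M⁻¹ *ᵥ v)) = v ⬝ᵥ (M⁻¹ *ᵥ v) := by
  have hu : IsUnit M.det := hM.det_pos.ne'.isUnit
  rw [mulVec_mulVec, mul_nonsing_inv _ hu, one_mulVec, dotProduct_comm]

theorem inv_mulVec_ne {m : ℕ} {M : Matrix (Fin m) (Fin m) ℝ} (hM : M.PosDef) {v : Fin m → ℝ}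
    (hv : v ≠ 0) : M⁻¹ *ᵥ v ≠ 0 := by
  have hu : IsUnit M.det := hM.det_pos.ne'.isUnit
  intro h
  apply hv
  have : M *ᵥ (M⁻¹ *ᵥ v) = v := by rw [mulVec_mulVec, mul_nonsing_inv _ hu, one_mulVec]
  rw [← this, h, mulVec_zero]

theorem inv_quad_pos {m : ℕ} {M : Matrix (Fin m) (Fin m) ℝ} (hM : M.PosDef) {v : Fin m → ℝ}
    (hv : v ≠ 0) : 0 < v ⬝ᵥ (M⁻¹ *ᵥ v) := by
  rw [← inv_quad_eq hM]
  have := hM.dotProduct_mulVec_pos (inv_mulVec_ne hM hv)
  rwa [star_trivial] at this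

/-- Rank one perturbations of an extremizer. -/
theorem rank_one (hc : ∀ i, 0 < c i) (hker : ∀ x, (∀ i, B i *ᵥ x = 0) → x = 0)
    (hA : ∀ i, (A i).PosDef)
    (hmax : ∀ A' : ∀ i, Matrix (Fin (n i)) (Fin (n i)) ℝ, (∀ i, (A' i).PosDef) →
        (∏ i, (A' i).det ^ c i) * (MM B c A).det ≤ (∏ i, (A i).det ^ c i) * (MM B c A').det)
    (u : ∀ i, Fin (n i) → ℝ) (θ : Fin k → ℝ) (y : Fin d → ℝ)
    (hu : ∀ i, (B i)ᵀ *ᵥ u i = θ i • y) (t : ℝ) (ht : 0 ≤ t) :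
    ∏ i, (1 + t * (u i ⬝ᵥ ((A i)⁻¹ *ᵥ u i))) ^ c i ≤
      1 + t * (∑ i, c i * θ i ^ 2) * (y ⬝ᵥ ((MM B c A)⁻¹ *ᵥ y)) := by
  have h1 := hmax (fun i => A i + t • vecMulVec (u i) (u i)) fun i => posDef_add (hA i) _ ht
  have hM := posDef_MM hA hc hker
  have h2 : MM B c (fun i => A i + t • vecMulVec (u i) (u i)) =
      MM B c A + (t * ∑ i, c i * θ i ^ 2) • vecMulVec y y := by
    unfold MM
    rw [Finset.mul_sum, Finset.sum_smul, ← Finset.sum_add_distrib]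
    refine Finset.sum_congr rfl fun i _ => ?_
    rw [Matrix.mul_add, Matrix.add_mul, smul_add, Matrix.mul_smul, Matrix.smul_mul]
    congr 1
    have e : (B i)ᵀ * vecMulVec (u i) (u i) * B i = θ i ^ 2 • vecMulVec y y := by
      rw [mul_vecMulVec, vecMulVec_mul, ← mulVec_transpose, hu i]
      ext a b
      simp only [vecMulVec_apply, Pi.smul_apply, smul_eq_mul, Matrix.smul_apply]
      ring
    rw [e, smul_smul, smul_smul]
    congr 1
    ring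
  have h3 : ∏ i, (A i + t • vecMulVec (u i) (u i)).det ^ c i =
      (∏ i, (A i).det ^ c i) * ∏ i, (1 + t * (u i ⬝ᵥ ((A i)⁻¹ *ᵥ u i))) ^ c i := by
    rw [← Finset.prod_mul_distrib]
    refine Finset.prod_congr rfl fun i _ => ?_
    rw [det_rank_one (hA i), Real.mul_rpow (hA i).det_pos.le]
    have := inv_quad_nonneg (hA i) (u i)
    positivity
  rw [h3, h2, det_rank_one hM] at h1
  have p1 := hM.det_pos
  have q1 := prod_pos' (c := c) hA
  have h4 : ((∏ i, (A i).det ^ c i) * (MM B c A).det) *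
      (∏ i, (1 + t * (u i ⬝ᵥ ((A i)⁻¹ *ᵥ u i))) ^ c i) ≤
      ((∏ i, (A i).det ^ c i) * (MM B c A).det) *
      (1 + t * (∑ i, c i * θ i ^ 2) * (y ⬝ᵥ ((MM B c A)⁻¹ *ᵥ y))) := by
    linarith
  exact le_of_mul_le_mul_left h4 (mul_pos q1 p1)

/-- The scaling condition. -/
theorem scaling (hc : ∀ i, 0 < c i) (hker : ∀ x, (∀ i, B i *ᵥ x = 0) → x = 0)
    (hA : ∀ i, (A i).PosDef)
    (hmax : ∀ A' : ∀ i, Matrix (Fin (n i)) (Fin (n i)) ℝ, (∀ i, (A' i).PosDef) →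
        (∏ i, (A' i).det ^ c i) * (MM B c A).det ≤ (∏ i, (A i).det ^ c i) * (MM B c A').det) :
    ∑ i, (n i : ℝ) * c i = d := by
  have hM := posDef_MM hA hc hker
  have p1 := hM.det_pos
  have q1 := prod_pos' (c := c) hA
  have key : ∀ t : ℝ, 0 < t → t ^ (∑ i, (n i : ℝ) * c i) ≤ t ^ (d : ℝ) := by
    intro t ht
    have h1 := hmax (fun i => t • A i) fun i => (hA i).smul ht
    have h2 : MM B c (fun i => t • A i) = t • MM B c A := by
      unfold MM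
      rw [Finset.smul_sum]
      refine Finset.sum_congr rfl fun i _ => ?_
      rw [Matrix.mul_smul, Matrix.smul_mul, smul_comm]
    have h3 : ∏ i, (t • A i).det ^ c i = t ^ (∑ i, (n i : ℝ) * c i) * ∏ i, (A i).det ^ c i := by
      rw [Real.rpow_sum_of_pos ht, ← Finset.prod_mul_distrib]
      refine Finset.prod_congr rfl fun i _ => ?_
      rw [det_smul, Fintype.card_fin, Real.mul_rpow (by positivity) (hA i).det_pos.le,
        ← Real.rpow_natCast, ← Real.rpow_mul ht.le]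
    rw [h3, h2, det_smul, Fintype.card_fin] at h1
    rw [Real.rpow_natCast]
    have h4 : ((∏ i, (A i).det ^ c i) * (MM B c A).det) * t ^ (∑ i, (n i : ℝ) * c i) ≤
        ((∏ i, (A i).det ^ c i) * (MM B c A).det) * t ^ d := by linarith
    exact le_of_mul_le_mul_left h4 (mul_pos q1 p1)
  refine le_antisymm ?_ ?_
  · have := key 2 two_pos
    rwa [Real.rpow_le_rpow_left_iff one_lt_two] at this
  · have := key (1 / 2) (by norm_num)
    rwa [Real.rpow_le_rpow_left_iff_of_base_lt_one (by norm_num) (by norm_num)] at this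

end general

theorem transpose_inj {m l : ℕ} {B : Matrix (Fin m) (Fin l) ℝ} (hB : Function.Surjective B.mulVec)
    {u : Fin m → ℝ} (h : Bᵀ *ᵥ u = 0) : u = 0 := by
  obtain ⟨x, hx⟩ := hB u
  have h1 : u ⬝ᵥ u = 0 := by
    nth_rewrite 2 [← hx]
    rw [dotProduct_mulVec, ← mulVec_transpose, h, zero_dotProduct]
  exact dotProduct_self_eq_zero.mp h1

/-- The dimensions. -/
def n0 : Fin 3 → ℕ
  | 0 => 2
  | 1 => 2
  | 2 => 1

/-- Common element of the row spaces. -/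
theorem common {B₁ B₂ : Matrix (Fin 2) (Fin 3) ℝ} (h₁ : Function.Surjective B₁.mulVec)
    (h₂ : Function.Surjective B₂.mulVec) :
    ∃ u v : Fin 2 → ℝ, u ≠ 0 ∧ v ≠ 0 ∧ B₁ᵀ *ᵥ u = B₂ᵀ *ᵥ v := by
  let L : (Fin 2 → ℝ) × (Fin 2 → ℝ) →ₗ[ℝ] (Fin 3 → ℝ) :=
    (B₁ᵀ.mulVecLin).coprod (-(B₂ᵀ.mulVecLin))
  have hker : LinearMap.ker L ≠ ⊥ := by
    refine LinearMap.ker_ne_bot_of_finrank_lt ?_
    rw [Module.finrank_prod, Module.finrank_fin_fun, Module.finrank_fin_fun]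
    norm_num
  obtain ⟨⟨u, v⟩, huv, hne⟩ := (Submodule.ne_bot_iff _).mp hker
  have h3 : B₁ᵀ *ᵥ u = B₂ᵀ *ᵥ v := by
    have : L (u, v) = 0 := huv
    simp only [L, LinearMap.coprod_apply, LinearMap.neg_apply, mulVecLin_apply] at this
    exact add_neg_eq_zero.mp this
  refine ⟨u, v, ?_, ?_, h3⟩
  · rintro rfl
    rw [mulVec_zero] at h3
    have := transpose_inj h₂ h3.symm
    exact hne (by rw [this]; rfl)
  · rintro rfl
    rw [mulVec_zero] at h3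
    have := transpose_inj h₁ h3
    exact hne (by rw [this]; rfl)

theorem one_dot (w : Fin 1 → ℝ) : (fun _ => (1 : ℝ)) ⬝ᵥ w = w 0 := by
  simp [dotProduct]

theorem one_dim (A : Matrix (Fin 1) (Fin 1) ℝ) (hA : A.PosDef) :
    0 < A 0 0 ∧ (∀ w : Fin 1 → ℝ, w ⬝ᵥ (A *ᵥ w) = A 0 0 * w 0 ^ 2) ∧
      (fun _ => (1 : ℝ)) ⬝ᵥ (A⁻¹ *ᵥ fun _ => (1 : ℝ)) = (A 0 0)⁻¹ := by
  refine ⟨hA.diag_pos, ?_, ?_⟩
  · intro w
    simp [dotProduct, mulVec]
    ring
  · have hunit : IsUnit A.det := hA.det_pos.ne'.isUnit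
    have h1 := congrFun (congrFun (mul_nonsing_inv A hunit) 0) 0
    rw [Matrix.mul_apply, Fin.sum_univ_one, one_apply_eq] at h1
    rw [one_dot]
    have : (A⁻¹ *ᵥ fun _ => (1 : ℝ)) 0 = A⁻¹ 0 0 := by simp [mulVec, dotProduct]
    rw [this]
    exact eq_inv_of_mul_eq_one_right h1

/-- In the format `(3; 2, 2, 1)` no datum with `ker B₁ ∩ ker B₂ = 0` is extremizable. -/
theorem no_ext (B : ∀ i, Matrix (Fin (n0 i)) (Fin 3) ℝ) (c : Fin 3 → ℝ) (h : IsDatum B c)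
    (hker : ∀ x, B 0 *ᵥ x = 0 → B 1 *ᵥ x = 0 → x = 0) : ¬ GaussianExtremizable B c := by
  intro hext
  have hc := h.2
  have hker' : ∀ x, (∀ i, B i *ᵥ x = 0) → x = 0 := fun x hx => hker x (hx 0) (hx 1)
  obtain ⟨A, hA, hmax⟩ := ext_ineq hc hker' hext
  have hM := posDef_MM hA hc hker'
  have hscale := scaling hc hker' hA hmax
  rw [Fin.sum_univ_three] at hscale
  have e0 : n0 0 = 2 := rfl
  have e1 : n0 1 = 2 := rfl
  have e2 : n0 2 = 1 := rfl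
  rw [e0, e1, e2] at hscale
  push_cast at hscale
  -- step 1 : c 2 < 1
  have hc2 : c 2 < 1 := by
    by_contra hge
    push Not at hge
    let u : ∀ i, Fin (n0 i) → ℝ := fun i _ => (![0, 0, 1] : Fin 3 → ℝ) i
    let θ : Fin 3 → ℝ := ![0, 0, 1]
    let y : Fin 3 → ℝ := (B 2)ᵀ *ᵥ u 2
    have hu : ∀ i, (B i)ᵀ *ᵥ u i = θ i • y := by
      intro i
      fin_cases i
      · change (B 0)ᵀ *ᵥ u 0 = θ 0 • y
        have e1 : u 0 = 0 := by funext j; simp [u]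
        have e2 : θ 0 = 0 := by simp [θ]
        rw [e1, e2, mulVec_zero, zero_smul]
      · change (B 1)ᵀ *ᵥ u 1 = θ 1 • y
        have e1 : u 1 = 0 := by funext j; simp [u]
        have e2 : θ 1 = 0 := by simp [θ]
        rw [e1, e2, mulVec_zero, zero_smul]
      · change (B 2)ᵀ *ᵥ u 2 = θ 2 • y
        have e2 : θ 2 = 1 := by simp [θ]
        rw [e2, one_smul]
    have h1 := rank_one hc hker' hA hmax u θ y hu 1 zero_le_one
    rw [Fin.prod_univ_three, Fin.sum_univ_three] at h1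
    have u0 : u 0 = 0 := by funext j; simp [u]
    have u1 : u 1 = 0 := by funext j; simp [u]
    have t0 : θ 0 = 0 := by simp [θ]
    have t1 : θ 1 = 0 := by simp [θ]
    have t2 : θ 2 = 1 := by simp [θ]
    rw [u0, u1, t0, t1, t2] at h1
    simp only [mulVec_zero, dotProduct_zero, mul_zero, add_zero, Real.one_rpow, one_mul, ne_eq,
      OfNat.ofNat_ne_zero, not_false_eq_true, zero_pow, one_pow, mul_one, zero_add] at h1
    -- the vector `v = M⁻¹ y`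
    set v := (MM B c A)⁻¹ *ᵥ y with hv
    have u2 : u 2 ≠ 0 := by
      intro h0
      have : (1 : ℝ) = 0 := congrFun h0 (0 : Fin 1)
      exact one_ne_zero this
    have hy : y ≠ 0 := by
      intro h0
      exact u2 (transpose_inj (h.1 2) h0)
    have hv0 : v ≠ 0 := inv_mulVec_ne hM hy
    have hr : y ⬝ᵥ v = ∑ i, c i * ((B i *ᵥ v) ⬝ᵥ (A i *ᵥ (B i *ᵥ v))) := by
      rw [← quad, hv, inv_quad_eq hM]
    rw [Fin.sum_univ_three] at hr
    have hpos : 0 < c 0 * ((B 0 *ᵥ v) ⬝ᵥ (A 0 *ᵥ (B 0 *ᵥ v))) +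
        c 1 * ((B 1 *ᵥ v) ⬝ᵥ (A 1 *ᵥ (B 1 *ᵥ v))) := by
      have a0 := (hA 0).posSemidef.dotProduct_mulVec_nonneg (B 0 *ᵥ v)
      have a1 := (hA 1).posSemidef.dotProduct_mulVec_nonneg (B 1 *ᵥ v)
      rw [star_trivial] at a0 a1
      by_cases hz : B 0 *ᵥ v = 0
      · have hz1 : B 1 *ᵥ v ≠ 0 := fun hz1 => hv0 (hker v hz hz1)
        have := (hA 1).dotProduct_mulVec_pos hz1
        rw [star_trivial] at this
        have := mul_pos (hc 1) this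
        have := mul_nonneg (hc 0).le a0
        linarith
      · have := (hA 0).dotProduct_mulVec_pos hz
        rw [star_trivial] at this
        have := mul_pos (hc 0) this
        have := mul_nonneg (hc 1).le a1
        linarith
    -- one-dimensional computations
    set a : ℝ := A 2 (0 : Fin 1) (0 : Fin 1) with ha
    set β : ℝ := (B 2 *ᵥ v) (0 : Fin 1) with hβ
    obtain ⟨od1, od2, od3⟩ := one_dim (A 2) (hA 2)
    have ha0 : 0 < a := od1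
    have hyv : y ⬝ᵥ v = β := by
      have : y ⬝ᵥ v = u 2 ⬝ᵥ (B 2 *ᵥ v) := by
        rw [dotProduct_mulVec (u 2) (B 2) v, ← mulVec_transpose]
      rw [this]
      exact one_dot (B 2 *ᵥ v)
    have hq : (B 2 *ᵥ v) ⬝ᵥ (A 2 *ᵥ (B 2 *ᵥ v)) = a * β ^ 2 := od2 (B 2 *ᵥ v)
    have hp : u 2 ⬝ᵥ ((A 2)⁻¹ *ᵥ u 2) = a⁻¹ := od3
    rw [hyv, hq] at hr
    rw [hyv, hp] at h1
    have hβ0 : 0 < β := by
      rw [hr]
      have : 0 ≤ c 2 * (a * β ^ 2) := mul_nonneg (hc 2).le (by positivity)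
      linarith
    have h2 : c 2 * (a * β ^ 2) < β := by linarith
    have h3 : c 2 * β < a⁻¹ := by
      rw [lt_inv_comm₀ (mul_pos (hc 2) hβ0) ha0]
      rw [lt_inv_comm₀ ha0 (mul_pos (hc 2) hβ0)]
      rw [← one_div, lt_div_iff₀ ha0]
      nlinarith
    have h4 : 1 + a⁻¹ ≤ (1 + a⁻¹) ^ c 2 := by
      have : (1 + a⁻¹) ^ (1 : ℝ) ≤ (1 + a⁻¹) ^ c 2 :=
        Real.rpow_le_rpow_of_exponent_le (by have := inv_pos.mpr ha0; linarith) hge
      rwa [Real.rpow_one] at this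
    linarith
  -- step 2 : c 0 + c 1 ≤ 1
  have hγ : 1 < c 0 + c 1 := by linarith
  obtain ⟨u₁, u₂, hu₁, hu₂, hcom⟩ := common (h.1 0) (h.1 1)
  let u : ∀ i, Fin (n0 i) → ℝ := fun i => match i with
    | 0 => u₁
    | 1 => u₂
    | 2 => 0
  let θ : Fin 3 → ℝ := ![1, 1, 0]
  let y : Fin 3 → ℝ := (B 0)ᵀ *ᵥ u₁
  have hu : ∀ i, (B i)ᵀ *ᵥ u i = θ i • y := by
    intro i
    fin_cases i
    · change (B 0)ᵀ *ᵥ u₁ = (1 : ℝ) • y
      rw [one_smul]
    · change (B 1)ᵀ *ᵥ u₂ = (1 : ℝ) • y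
      rw [one_smul]
      exact hcom.symm
    · change (B 2)ᵀ *ᵥ 0 = (0 : ℝ) • y
      rw [mulVec_zero, zero_smul]
  have hy : y ≠ 0 := fun h0 => hu₁ (transpose_inj (h.1 0) h0)
  set r := y ⬝ᵥ ((MM B c A)⁻¹ *ᵥ y) with hr
  have hr0 : 0 ≤ r := inv_quad_nonneg hM y
  have p₁ : 0 < u 0 ⬝ᵥ ((A 0)⁻¹ *ᵥ u 0) := inv_quad_pos (hA 0) (v := u 0) hu₁
  have p₂ : 0 < u 1 ⬝ᵥ ((A 1)⁻¹ *ᵥ u 1) := inv_quad_pos (hA 1) (v := u 1) hu₂
  set q₁ := u 0 ⬝ᵥ ((A 0)⁻¹ *ᵥ u 0) with hq₁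
  set q₂ := u 1 ⬝ᵥ ((A 1)⁻¹ *ᵥ u 1) with hq₂
  set p := min q₁ q₂ with hp
  have hp0 : 0 < p := lt_min p₁ p₂
  have hall : ∀ t : ℝ, 0 < t → (1 + t * p) ^ (c 0 + c 1) ≤ 1 + t * (c 0 + c 1) * r := by
    intro t ht
    have h1 := rank_one hc hker' hA hmax u θ y hu t ht.le
    rw [Fin.prod_univ_three, Fin.sum_univ_three] at h1
    have h4 : u 2 = 0 := rfl
    have t0 : θ 0 = 1 := rfl
    have t1 : θ 1 = 1 := rfl
    have t2 : θ 2 = 0 := rfl
    rw [h4, t0, t1, t2, ← hr, ← hq₁, ← hq₂] at h1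
    simp only [mulVec_zero, dotProduct_zero, mul_zero, add_zero, Real.one_rpow, mul_one, ne_eq,
      OfNat.ofNat_ne_zero, not_false_eq_true, zero_pow, one_pow] at h1
    refine le_trans ?_ h1
    have a1 : 0 < 1 + t * p := by positivity
    rw [Real.rpow_add a1]
    refine mul_le_mul ?_ ?_ (Real.rpow_nonneg a1.le _) (Real.rpow_nonneg (by positivity) _)
    · refine Real.rpow_le_rpow a1.le ?_ (hc 0).le
      have : p ≤ q₁ := min_le_left _ _
      nlinarith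
    · refine Real.rpow_le_rpow a1.le ?_ (hc 1).le
      have : p ≤ q₂ := min_le_right _ _
      nlinarith
  have htend := tendsto_rpow_atTop (show 0 < c 0 + c 1 - 1 by linarith)
  obtain ⟨T, hT⟩ := (Filter.tendsto_atTop_atTop.mp htend) ((1 + (c 0 + c 1) * r) / p + 1)
  set s := max T (max 1 p) with hs
  have hsT : T ≤ s := le_max_left _ _
  have hs1 : 1 ≤ s := (le_max_left _ _).trans (le_max_right _ _)
  have hsp : p ≤ s := (le_max_right _ _).trans (le_max_right _ _)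
  have hTs := hT s hsT
  have h5 := hall (s / p) (by positivity)
  have e5 : s / p * p = s := by field_simp
  rw [e5] at h5
  have h6 : s ^ (c 0 + c 1) ≤ (1 + s) ^ (c 0 + c 1) :=
    Real.rpow_le_rpow (by linarith) (by linarith) (by linarith)
  have h7 : s ^ (c 0 + c 1) = s ^ (c 0 + c 1 - 1) * s := by
    rw [Real.rpow_sub_one (by linarith)]
    field_simp
  have h8 : ((1 + (c 0 + c 1) * r) / p + 1) * s ≤ s ^ (c 0 + c 1 - 1) * s :=
    mul_le_mul_of_nonneg_right hTs (by linarith)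
  have h9 : ((1 + (c 0 + c 1) * r) / p + 1) * s = s / p + s / p * (c 0 + c 1) * r + s := by
    field_simp
  have h10 : 1 ≤ s / p := by rw [le_div_iff₀ hp0]; linarith
  linarith

/-- The maps of the datum. -/
def B0 : ∀ i, Matrix (Fin (n0 i)) (Fin 3) ℝ
  | 0 => (!![0, 1, 0; 0, 0, 1] : Matrix (Fin 2) (Fin 3) ℝ)
  | 1 => (!![1, 1, 0; 0, 0, 1] : Matrix (Fin 2) (Fin 3) ℝ)
  | 2 => (!![1, 0, 0] : Matrix (Fin 1) (Fin 3) ℝ)

/-- The exponents of the datum. -/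
noncomputable def c0 : Fin 3 → ℝ := ![1 / 2, 1 / 2, 1]

theorem datum0 : IsDatum B0 c0 := by
  refine ⟨fun i => ?_, fun i => ?_⟩
  · fin_cases i
    · change Function.Surjective (!![0, 1, 0; 0, 0, 1] : Matrix (Fin 2) (Fin 3) ℝ).mulVec
      intro w
      refine ⟨![0, w 0, w 1], ?_⟩
      funext j
      fin_cases j <;> simp [mulVec, dotProduct, Fin.sum_univ_three]
    · change Function.Surjective (!![1, 1, 0; 0, 0, 1] : Matrix (Fin 2) (Fin 3) ℝ).mulVec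
      intro w
      refine ⟨![0, w 0, w 1], ?_⟩
      funext j
      fin_cases j <;> simp [mulVec, dotProduct, Fin.sum_univ_three]
    · change Function.Surjective (!![1, 0, 0] : Matrix (Fin 1) (Fin 3) ℝ).mulVec
      intro w
      refine ⟨![w 0, 0, 0], ?_⟩
      funext j
      fin_cases j
      simp [mulVec, dotProduct, Fin.sum_univ_three]
  · fin_cases i <;> simp [c0]

theorem feas_aux (f₀ f₁ : (Fin 2 → ℝ) → ℝ≥0∞) (f₂ : (Fin 1 → ℝ) → ℝ≥0∞) (h₀ : Measurable f₀)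
    (h₁ : Measurable f₁) (h₂ : Measurable f₂) :
    ∫⁻ x : Fin 3 → ℝ, f₀ ((!![0, 1, 0; 0, 0, 1] : Matrix (Fin 2) (Fin 3) ℝ) *ᵥ x) ^ (1 / 2 : ℝ) *
      f₁ ((!![1, 1, 0; 0, 0, 1] : Matrix (Fin 2) (Fin 3) ℝ) *ᵥ x) ^ (1 / 2 : ℝ) *
      f₂ ((!![1, 0, 0] : Matrix (Fin 1) (Fin 3) ℝ) *ᵥ x) ≤
    ((1 : ℝ≥0) : ℝ≥0∞) * ((∫⁻ y, f₀ y) ^ (1 / 2 : ℝ) * (∫⁻ y, f₁ y) ^ (1 / 2 : ℝ) * ∫⁻ y, f₂ y) := by
  rw [ENNReal.coe_one, one_mul]
  have hmp := (volume_preserving_piFinSuccAbove (fun _ : Fin 3 => ℝ) 0).symm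
  rw [← hmp.lintegral_comp_emb (MeasurableEquiv.measurableEmbedding _)]
  have e : ∀ p : ℝ × (Fin 2 → ℝ),
      f₀ ((!![0, 1, 0; 0, 0, 1] : Matrix (Fin 2) (Fin 3) ℝ) *ᵥ
        ((MeasurableEquiv.piFinSuccAbove (fun _ : Fin 3 => ℝ) 0).symm p)) ^ (1 / 2 : ℝ) *
      f₁ ((!![1, 1, 0; 0, 0, 1] : Matrix (Fin 2) (Fin 3) ℝ) *ᵥ
        ((MeasurableEquiv.piFinSuccAbove (fun _ : Fin 3 => ℝ) 0).symm p)) ^ (1 / 2 : ℝ) *
      f₂ ((!![1, 0, 0] : Matrix (Fin 1) (Fin 3) ℝ) *ᵥ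
        ((MeasurableEquiv.piFinSuccAbove (fun _ : Fin 3 => ℝ) 0).symm p)) =
      f₀ p.2 ^ (1 / 2 : ℝ) * f₁ (p.2 + ![p.1, 0]) ^ (1 / 2 : ℝ) * f₂ (fun _ => p.1) := by
    rintro ⟨z, w⟩
    have s0 : (MeasurableEquiv.piFinSuccAbove (fun _ : Fin 3 => ℝ) 0).symm (z, w) 0 = z := rfl
    have s1 : (MeasurableEquiv.piFinSuccAbove (fun _ : Fin 3 => ℝ) 0).symm (z, w) 1 = w 0 := rfl
    have s2 : (MeasurableEquiv.piFinSuccAbove (fun _ : Fin 3 => ℝ) 0).symm (z, w) 2 = w 1 := rfl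
    congr 1
    · congr 1
      · congr 2
        funext j
        fin_cases j
        · simp only [mulVec, dotProduct, Fin.sum_univ_three, s0, s1, s2]
          simp
        · simp only [mulVec, dotProduct, Fin.sum_univ_three, s0, s1, s2]
          simp
      · congr 2
        funext j
        fin_cases j
        · simp only [mulVec, dotProduct, Fin.sum_univ_three, s0, s1, s2]
          simp
          ring
        · simp only [mulVec, dotProduct, Fin.sum_univ_three, s0, s1, s2]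
          simp
    · congr 1
      funext j
      fin_cases j
      simp only [mulVec, dotProduct, Fin.sum_univ_three, s0, s1, s2]
      simp
  simp_rw [e]
  have hadd : Measurable fun p : ℝ × (Fin 2 → ℝ) => p.2 + ![p.1, 0] := by
    refine measurable_snd.add ?_
    refine measurable_pi_lambda _ fun j => ?_
    fin_cases j
    · exact measurable_fst
    · exact measurable_const
  have m1 : Measurable fun p : ℝ × (Fin 2 → ℝ) =>
      f₀ p.2 ^ (1 / 2 : ℝ) * f₁ (p.2 + ![p.1, 0]) ^ (1 / 2 : ℝ) * f₂ (fun _ => p.1) :=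
    (((h₀.comp measurable_snd).pow_const _).mul ((h₁.comp hadd).pow_const _)).mul
      (h₂.comp (measurable_pi_lambda _ fun _ => measurable_fst))
  rw [Measure.volume_eq_prod, lintegral_prod _ m1.aemeasurable]
  have hsq : ∀ g : (Fin 2 → ℝ) → ℝ≥0∞, (fun w => (g w ^ (1 / 2 : ℝ)) ^ (2 : ℝ)) = g := by
    intro g
    funext w
    rw [← ENNReal.rpow_mul]
    norm_num
  have inner : ∀ z : ℝ, ∫⁻ w, f₀ w ^ (1 / 2 : ℝ) * f₁ (w + ![z, 0]) ^ (1 / 2 : ℝ) *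
      f₂ (fun _ => z) ≤ ((∫⁻ y, f₀ y) ^ (1 / 2 : ℝ) * (∫⁻ y, f₁ y) ^ (1 / 2 : ℝ)) *
        f₂ (fun _ => z) := by
    intro z
    have mz : Measurable fun w : Fin 2 → ℝ => f₁ (w + ![z, 0]) :=
      h₁.comp (measurable_id.add measurable_const)
    have mm : Measurable fun w : Fin 2 → ℝ => f₀ w ^ (1 / 2 : ℝ) * f₁ (w + ![z, 0]) ^ (1 / 2 : ℝ) :=
      (h₀.pow_const _).mul (mz.pow_const _)
    rw [lintegral_mul_const _ mm]
    refine mul_le_mul_left ?_ _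
    have hH := ENNReal.lintegral_mul_le_Lp_mul_Lq (volume : Measure (Fin 2 → ℝ))
      (Real.HolderConjugate.two_two) (h₀.pow_const (1 / 2 : ℝ)).aemeasurable
      (mz.pow_const (1 / 2 : ℝ)).aemeasurable
    rw [hsq f₀, hsq fun w => f₁ (w + ![z, 0]), lintegral_add_right_eq_self f₁] at hH
    exact hH
  refine (lintegral_mono inner).trans ?_
  have mf : Measurable fun z : ℝ => f₂ (fun _ => z) :=
    h₂.comp (measurable_pi_lambda _ fun _ => measurable_id)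
  rw [lintegral_const_mul _ mf]
  refine le_of_eq ?_
  congr 1
  exact (volume_preserving_funUnique (Fin 1) ℝ).symm.lintegral_comp_emb
    (MeasurableEquiv.measurableEmbedding _) f₂

theorem feasible0 : Feasible B0 c0 := by
  refine ⟨1, fun f hf _ => ?_⟩
  rw [Fin.prod_univ_three]
  simp_rw [Fin.prod_univ_three]
  have c00 : c0 0 = 1 / 2 := rfl
  have c01 : c0 1 = 1 / 2 := rfl
  have c02 : c0 2 = 1 := rfl
  rw [c00, c01, c02, ENNReal.rpow_one]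
  simp_rw [ENNReal.rpow_one]
  exact feas_aux (f 0) (f 1) (f 2) (hf 0) (hf 1) (hf 2)

theorem result : ∃ (k d : ℕ) (n : Fin k → ℕ) (B : ∀ i, Matrix (Fin (n i)) (Fin d) ℝ)
    (c : Fin k → ℝ) (ε : ℝ), 1 ≤ k ∧ 1 ≤ d ∧ (∀ i, 1 ≤ n i) ∧ IsDatum B c ∧ Feasible B c ∧
      0 < ε ∧ ∀ (B' : ∀ i, Matrix (Fin (n i)) (Fin d) ℝ) (c' : Fin k → ℝ), IsDatum B' c' →
        (∀ i a b, |B i a b - B' i a b| < ε) → (∀ i, |c i - c' i| < ε) →
          ¬ GaussianExtremizable B' c' := by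
  refine ⟨3, 3, n0, B0, c0, 1 / 10, by norm_num, by norm_num, ?_, datum0, feasible0, by norm_num, ?_⟩
  · intro i
    fin_cases i
    · exact one_le_two
    · exact one_le_two
    · exact le_rfl
  intro B' c' hd hB _
  refine no_ext B' c' hd fun x h0 h1 => ?_
  have a1 := congrFun h0 (0 : Fin 2)
  have a2 := congrFun h0 (1 : Fin 2)
  have a3 := congrFun h1 (0 : Fin 2)
  have e1 : B' 0 (0 : Fin 2) 0 * x 0 + B' 0 (0 : Fin 2) 1 * x 1 + B' 0 (0 : Fin 2) 2 * x 2 = 0 := by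
    rw [← Fin.sum_univ_three (fun j => B' 0 (0 : Fin 2) j * x j)]
    exact a1
  have e2 : B' 0 (1 : Fin 2) 0 * x 0 + B' 0 (1 : Fin 2) 1 * x 1 + B' 0 (1 : Fin 2) 2 * x 2 = 0 := by
    rw [← Fin.sum_univ_three (fun j => B' 0 (1 : Fin 2) j * x j)]
    exact a2
  have e3 : B' 1 (0 : Fin 2) 0 * x 0 + B' 1 (0 : Fin 2) 1 * x 1 + B' 1 (0 : Fin 2) 2 * x 2 = 0 := by
    rw [← Fin.sum_univ_three (fun j => B' 1 (0 : Fin 2) j * x j)]
    exact a3
  have b1 : ∀ j : Fin 3, |B0 0 (0 : Fin 2) j - B' 0 (0 : Fin 2) j| < 1 / 10 := hB 0 (0 : Fin 2)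
  have b2 : ∀ j : Fin 3, |B0 0 (1 : Fin 2) j - B' 0 (1 : Fin 2) j| < 1 / 10 := hB 0 (1 : Fin 2)
  have b3 : ∀ j : Fin 3, |B0 1 (0 : Fin 2) j - B' 1 (0 : Fin 2) j| < 1 / 10 := hB 1 (0 : Fin 2)
  have m : ∀ a b z : ℝ, |a - b| < 1 / 10 → |(a - b) * z| ≤ 1 / 10 * |z| := by
    intro a b z h
    rw [abs_mul]
    exact mul_le_mul_of_nonneg_right h.le (abs_nonneg z)
  have v00 : B0 0 (0 : Fin 2) 0 = 0 := rfl
  have v01 : B0 0 (0 : Fin 2) 1 = 1 := rfl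
  have v02 : B0 0 (0 : Fin 2) 2 = 0 := rfl
  have v10 : B0 0 (1 : Fin 2) 0 = 0 := rfl
  have v11 : B0 0 (1 : Fin 2) 1 = 0 := rfl
  have v12 : B0 0 (1 : Fin 2) 2 = 1 := rfl
  have w00 : B0 1 (0 : Fin 2) 0 = 1 := rfl
  have w01 : B0 1 (0 : Fin 2) 1 = 1 := rfl
  have w02 : B0 1 (0 : Fin 2) 2 = 0 := rfl
  have c1 := abs_le.mp (m _ _ (x 0) (b1 0))
  have c2 := abs_le.mp (m _ _ (x 1) (b1 1))
  have c3 := abs_le.mp (m _ _ (x 2) (b1 2))
  have d1 := abs_le.mp (m _ _ (x 0) (b2 0))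
  have d2 := abs_le.mp (m _ _ (x 1) (b2 1))
  have d3 := abs_le.mp (m _ _ (x 2) (b2 2))
  have f1 := abs_le.mp (m _ _ (x 0) (b3 0))
  have f2 := abs_le.mp (m _ _ (x 1) (b3 1))
  have f3 := abs_le.mp (m _ _ (x 2) (b3 2))
  rw [v00] at c1
  rw [v01] at c2
  rw [v02] at c3
  rw [v10] at d1
  rw [v11] at d2
  rw [v12] at d3
  rw [w00] at f1
  rw [w01] at f2
  rw [w02] at f3
  have g1 : |x 1| ≤ 1 / 10 * (|x 0| + |x 1| + |x 2|) := by
    rw [abs_le]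
    constructor <;> linarith [c1.1, c1.2, c2.1, c2.2, c3.1, c3.2]
  have g2 : |x 2| ≤ 1 / 10 * (|x 0| + |x 1| + |x 2|) := by
    rw [abs_le]
    constructor <;> linarith [d1.1, d1.2, d2.1, d2.2, d3.1, d3.2]
  have g3 : |x 0 + x 1| ≤ 1 / 10 * (|x 0| + |x 1| + |x 2|) := by
    rw [abs_le]
    constructor <;> linarith [f1.1, f1.2, f2.1, f2.2, f3.1, f3.2]
  have g4 : |x 0| ≤ |x 0 + x 1| + |x 1| := by
    have := abs_sub (x 0 + x 1) (x 1)
    rwa [add_sub_cancel_right] at this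
  have hx0 := abs_nonneg (x 0)
  have hx1 := abs_nonneg (x 1)
  have hx2 := abs_nonneg (x 2)
  have z0 : |x 0| = 0 := by linarith
  have z1 : |x 1| = 0 := by linarith
  have z2 : |x 2| = 0 := by linarith
  funext j
  fin_cases j
  · exact abs_eq_zero.mp z0
  · exact abs_eq_zero.mp z1
  · exact abs_eq_zero.mp z2

end Pool.Agent.Results.MP_b8a264_an.NotDense
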